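import Mathlib

set_option autoImplicit false

open Filter Topology

namespace Pool.Agent.Results.MP_aae597_nt.LandauFails

/-- Statement (S): Sarnak's conjecture (same wording as in the frozen statement). -/
def SarnakS : Prop :=
  ∀ (X : Type) [MetricSpace X] [CompactSpace X] (T : X → X), Continuous T →
    Dynamics.coverEntropy T Set.univ = 0 →
    ∀ f : X → ℂ, Continuous f → ∀ x : X,
      Tendsto (fun N : ℕ =>
        (∑ n ∈ Finset.Icc 1 N,
          ((ArithmeticFunction.moebius n : ℤ) : ℂ) * f (T^[n] x)) / (N : ℂ))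
        atTop (𝓝 0)

/-- Statement (L): the Landau-type version (same wording as in the frozen statement). -/
def LandauL : Prop :=
  ∀ (X : Type) [MetricSpace X] [CompactSpace X] (T : X → X), Continuous T →
    Dynamics.coverEntropy T Set.univ = 0 →
    ∀ f : X → ℂ, Continuous f → ∀ x : X,
      ∃ L : ℂ, Tendsto (fun N : ℕ =>
        ∑ n ∈ Finset.Icc 1 N,
          ((ArithmeticFunction.moebius n : ℤ) : ℂ) / (n : ℂ) * f (T^[n] x))
        atTop (𝓝 L)

/-- If the forward orbit is infinite then `n ↦ T^[n] x` is injective. -/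
lemma injective_of_infinite {X : Type} (T : X → X) (x : X)
    (hx : (Set.range fun n : ℕ => T^[n] x).Infinite) :
    Function.Injective fun n : ℕ => T^[n] x := by
  have key : ∀ m n : ℕ, m < n → T^[m] x ≠ T^[n] x := by
    intro m n hmn heq
    apply hx
    have hall : ∀ k : ℕ, ∃ j, j < n ∧ T^[k] x = T^[j] x := by
      intro k
      induction k using Nat.strong_induction_on with
      | _ k ih =>
        by_cases hk : k < n
        · exact ⟨k, hk, rfl⟩
        · push Not at hk
          obtain ⟨j, hj, hjk⟩ := ih (k - n + m) (by omega)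
          refine ⟨j, hj, ?_⟩
          rw [← hjk]
          conv_lhs => rw [show k = (k - n) + n by omega, Function.iterate_add_apply, ← heq,
            ← Function.iterate_add_apply]
    refine (Set.Finite.subset ((Finset.range n).finite_toSet.image fun j => T^[j] x) ?_)
    rintro y ⟨k, rfl⟩
    obtain ⟨j, hj, hjk⟩ := hall k
    exact ⟨j, by simpa using hj, hjk.symm⟩
  intro m n hmn
  rcases lt_trichotomy m n with h | h | h
  · exact absurd hmn (key m n h)
  · exact h
  · exact absurd hmn.symm (key n m h)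

lemma sum_sq_le (N : ℕ) : ∑ d ∈ Finset.Icc 1 N, (1 : ℝ) / (d : ℝ) ^ 2 ≤ 2 := by
  rcases Nat.eq_zero_or_pos N with h | h
  · subst h; simp
  · have h1 : ∀ M : ℕ, 1 ≤ M → ∑ d ∈ Finset.Icc 1 M, (1 : ℝ) / (d : ℝ) ^ 2 ≤ 2 - 1 / (M : ℝ) := by
      intro M hM
      induction M, hM using Nat.le_induction with
      | base => norm_num
      | succ M hM ih =>
        rw [Finset.sum_Icc_succ_top (by omega)]
        have hM' : (0 : ℝ) < M := by exact_mod_cast hM
        have h2 : (1 : ℝ) / ((M + 1 : ℕ) : ℝ) ^ 2 ≤ 1 / (M : ℝ) - 1 / ((M + 1 : ℕ) : ℝ) := by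
          push_cast
          rw [div_sub_div _ _ (by positivity) (by positivity), div_le_div_iff₀ (by positivity) (by positivity)]
          nlinarith
        linarith
    have := h1 N h
    have h3 : (0 : ℝ) ≤ 1 / (N : ℝ) := by positivity
    linarith

lemma log_le_sum (N : ℕ) (hN : 1 ≤ N) : Real.log N ≤ 2 * ∑ n ∈ Finset.Icc 1 N,
    ((ArithmeticFunction.moebius n : ℤ) : ℝ) / (n : ℝ) *
      ((ArithmeticFunction.moebius n : ℤ) : ℝ) := by
  classical
  have hlog : Real.log N ≤ ∑ n ∈ Finset.Icc 1 N, (1 : ℝ) / n := by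
    have h1 := log_le_harmonic_floor (N : ℝ) (by positivity)
    rw [Nat.floor_natCast, harmonic_eq_sum_Icc] at h1
    push_cast at h1
    simpa [one_div] using h1
  have hterm : ∀ n : ℕ, ((ArithmeticFunction.moebius n : ℤ) : ℝ) / (n : ℝ) *
      ((ArithmeticFunction.moebius n : ℤ) : ℝ) = if Squarefree n then (1 : ℝ) / n else 0 := by
    intro n
    split_ifs with hs
    · have h2 : ((ArithmeticFunction.moebius n : ℤ) : ℝ) ^ 2 = 1 := by
        have := ArithmeticFunction.moebius_sq_eq_one_of_squarefree hs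
        exact_mod_cast this
      calc _ = ((ArithmeticFunction.moebius n : ℤ) : ℝ) ^ 2 / n := by ring
        _ = _ := by rw [h2]
    · rw [ArithmeticFunction.moebius_eq_zero_of_not_squarefree hs]; simp
  have hdec : ∀ n : ℕ, ∃ p : ℕ × ℕ, 1 ≤ n → n ≤ N →
      (p.1 ∈ Finset.Icc 1 N ∧ p.2 ∈ Finset.Icc 1 N ∧ Squarefree p.2 ∧ p.1 ^ 2 * p.2 = n) := by
    intro n
    by_cases hn : 1 ≤ n
    · obtain ⟨a, b, ha, hb, hab, hsq⟩ := Nat.sq_mul_squarefree_of_pos hn
      refine ⟨(b, a), fun _ hnN => ?_⟩
      have hb1 : b ≤ n := by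
        calc b = b * 1 := (mul_one b).symm
          _ ≤ b * b := Nat.mul_le_mul_left b hb
          _ = b ^ 2 * 1 := by ring
          _ ≤ b ^ 2 * a := Nat.mul_le_mul_left _ ha
          _ = n := hab
      have ha1 : a ≤ n := by
        calc a = 1 * a := (one_mul a).symm
          _ ≤ b ^ 2 * a := Nat.mul_le_mul_right a (Nat.one_le_pow _ _ hb)
          _ = n := hab
      simp only [Finset.mem_Icc]
      exact ⟨⟨hb, hb1.trans hnN⟩, ⟨ha, ha1.trans hnN⟩, hsq, hab⟩
    · exact ⟨(0, 0), fun h => absurd h hn⟩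
  choose p hp using hdec
  have hmain : ∑ n ∈ Finset.Icc 1 N, (1 : ℝ) / n ≤
      ∑ q ∈ Finset.Icc 1 N ×ˢ Finset.Icc 1 N,
        (1 : ℝ) / (q.1 : ℝ) ^ 2 * (if Squarefree q.2 then (1 : ℝ) / q.2 else 0) := by
    have hinj : Set.InjOn p (Finset.Icc 1 N : Finset ℕ) := by
      intro a ha b hb hab
      have ha' := Finset.mem_Icc.1 (Finset.mem_coe.1 ha)
      have hb' := Finset.mem_Icc.1 (Finset.mem_coe.1 hb)
      rw [← (hp a ha'.1 ha'.2).2.2.2, ← (hp b hb'.1 hb'.2).2.2.2, hab]
    calc ∑ n ∈ Finset.Icc 1 N, (1 : ℝ) / n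
        = ∑ n ∈ Finset.Icc 1 N, (1 : ℝ) / ((p n).1 : ℝ) ^ 2 *
            (if Squarefree (p n).2 then (1 : ℝ) / (p n).2 else 0) := by
          apply Finset.sum_congr rfl
          intro n hn
          have hn' := Finset.mem_Icc.1 hn
          obtain ⟨h1, h2, h3, h4⟩ := hp n hn'.1 hn'.2
          rw [if_pos h3, one_div_mul_one_div]
          congr 1
          exact_mod_cast h4.symm
      _ = ∑ q ∈ (Finset.Icc 1 N).image p, (1 : ℝ) / (q.1 : ℝ) ^ 2 *
            (if Squarefree q.2 then (1 : ℝ) / q.2 else 0) := by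
          rw [Finset.sum_image hinj]
      _ ≤ _ := by
          apply Finset.sum_le_sum_of_subset_of_nonneg
          · intro q hq
            obtain ⟨n, hn, rfl⟩ := Finset.mem_image.1 hq
            have hn' := Finset.mem_Icc.1 hn
            obtain ⟨h1, h2, -, -⟩ := hp n hn'.1 hn'.2
            exact Finset.mem_product.2 ⟨h1, h2⟩
          · intro q _ _
            split_ifs <;> positivity
  rw [Finset.sum_product] at hmain
  simp_rw [← Finset.mul_sum] at hmain
  rw [← Finset.sum_mul] at hmain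
  have hS : 0 ≤ ∑ n ∈ Finset.Icc 1 N, (if Squarefree n then (1 : ℝ) / n else 0) := by
    apply Finset.sum_nonneg; intro n _; split_ifs <;> positivity
  calc Real.log N ≤ _ := hlog
    _ ≤ _ := hmain
    _ ≤ 2 * ∑ n ∈ Finset.Icc 1 N, (if Squarefree n then (1 : ℝ) / n else 0) := by
        apply mul_le_mul_of_nonneg_right (sum_sq_le N) hS
    _ = _ := by
        congr 1
        apply Finset.sum_congr rfl
        intro n _
        rw [hterm]

/-- Interpolation: for distinct points `u n`, a norm-one continuous function taking the values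
`μ(n)` at `u n` for `1 ≤ n ≤ N`. -/
lemma exists_interp {X : Type} [MetricSpace X] [CompactSpace X] (u : ℕ → X)
    (hu : Function.Injective u) (N : ℕ) :
    ∃ g : C(X, ℂ), ‖g‖ ≤ 1 ∧ ∀ n ∈ Finset.Icc 1 N,
      g (u n) = ((ArithmeticFunction.moebius n : ℤ) : ℂ) := by
  classical
  let s : Set X := u '' (Finset.Icc 1 N : Finset ℕ)
  have hsfin : s.Finite := (Finset.finite_toSet _).image u
  have hs : IsClosed s := hsfin.isClosed
  have : Finite s := hsfin
  let v : X → ℝ := fun y => ((ArithmeticFunction.moebius (Function.invFun u y) : ℤ) : ℝ)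
  have hdisc : DiscreteTopology s := inferInstance
  let f : C(s, ℝ) := ⟨fun y => v y.1, continuous_of_discreteTopology⟩
  have hf : ∀ y, f y ∈ Set.Icc (-1 : ℝ) 1 := by
    intro y
    have h1 := ArithmeticFunction.abs_moebius_le_one (n := Function.invFun u y.1)
    rw [abs_le] at h1
    refine ⟨?_, ?_⟩
    · change (-1 : ℝ) ≤ ((ArithmeticFunction.moebius (Function.invFun u y.1) : ℤ) : ℝ)
      exact_mod_cast h1.1
    · change ((ArithmeticFunction.moebius (Function.invFun u y.1) : ℤ) : ℝ) ≤ 1
      exact_mod_cast h1.2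
  obtain ⟨g, hg, hgf⟩ := ContinuousMap.exists_restrict_eq_forall_mem_of_closed f hf ⟨0, by simp⟩ hs
  refine ⟨⟨fun y => ((g y : ℝ) : ℂ), by fun_prop⟩, ?_, ?_⟩
  · rw [ContinuousMap.norm_le _ zero_le_one]
    intro y
    have h2 := hg y
    change ‖((g y : ℝ) : ℂ)‖ ≤ 1
    rw [Complex.norm_real, Real.norm_eq_abs, abs_le]
    exact h2
  · intro n hn
    have hmem : u n ∈ s := ⟨n, by exact_mod_cast hn, rfl⟩
    have h3 : g (u n) = f ⟨u n, hmem⟩ := by
      rw [← hgf]; rfl
    change ((g (u n) : ℝ) : ℂ) = _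
    rw [h3]
    change ((v (u n) : ℝ) : ℂ) = _
    have h4 : Function.invFun u (u n) = n := Function.leftInverse_invFun hu n
    simp only [v, h4]
    push_cast
    rfl

/-- The partial sums of the Landau-type series as continuous linear functionals. -/
noncomputable def landauFun {X : Type} [MetricSpace X] [CompactSpace X] (u : ℕ → X) (N : ℕ) :
    C(X, ℂ) →L[ℂ] ℂ :=
  ∑ n ∈ Finset.Icc 1 N,
    (((ArithmeticFunction.moebius n : ℤ) : ℂ) / (n : ℂ)) • ContinuousMap.evalCLM ℂ (u n)

lemma landauFun_apply {X : Type} [MetricSpace X] [CompactSpace X] (u : ℕ → X) (N : ℕ)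
    (f : C(X, ℂ)) : landauFun u N f = ∑ n ∈ Finset.Icc 1 N,
      ((ArithmeticFunction.moebius n : ℤ) : ℂ) / (n : ℂ) * f (u n) := by
  simp [landauFun]

/-- Every infinite forward orbit in every compact metric system carries, for every `φ → ∞`, a
continuous function whose Landau-type partial sums are not `O(log N / φ N)`. -/
theorem large_of_infinite_orbit (X : Type) [MetricSpace X] [CompactSpace X] (T : X → X)
    (x : X) (hx : (Set.range fun n : ℕ => T^[n] x).Infinite)
    (φ : ℕ → ℝ) (hφ : Tendsto φ atTop atTop) :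
    ∃ f : X → ℂ, Continuous f ∧ ∀ B : ℝ, ∃ᶠ N : ℕ in atTop,
      B * (Real.log N / φ N) < ‖∑ n ∈ Finset.Icc 1 N,
        ((ArithmeticFunction.moebius n : ℤ) : ℂ) / (n : ℂ) * f (T^[n] x)‖ := by
  have hinj := injective_of_infinite T x hx
  set u : ℕ → X := fun n => T^[n] x with hu
  by_contra hcon
  push Not at hcon
  let G : ℕ → C(X, ℂ) →L[ℂ] ℂ := fun N => ((φ N / Real.log N : ℝ) : ℂ) • landauFun u N
  have hGn : ∀ N (f : C(X, ℂ)), ‖G N f‖ = |φ N / Real.log N| * ‖landauFun u N f‖ := by
    intro N f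
    change ‖((φ N / Real.log N : ℝ) : ℂ) • landauFun u N f‖ = _
    rw [norm_smul, Complex.norm_real, Real.norm_eq_abs]
  have hbs : ∀ f : C(X, ℂ), ∃ C, ∀ N : ℕ, ‖G N f‖ ≤ C := by
    intro f
    obtain ⟨B, hB⟩ := hcon f f.continuous
    have hev : ∀ᶠ N in atTop, ‖G N f‖ ≤ B := by
      filter_upwards [hB, hφ.eventually_gt_atTop 0, eventually_ge_atTop 2] with N h1 h2 h3
      have hlog : 0 < Real.log N := Real.log_pos (by exact_mod_cast h3)
      rw [hGn, abs_of_pos (div_pos h2 hlog), landauFun_apply]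
      calc φ N / Real.log N * _ ≤ φ N / Real.log N * (B * (Real.log N / φ N)) := by
            apply mul_le_mul_of_nonneg_left h1 (div_pos h2 hlog).le
        _ = B := by field_simp
    have hbd : BddAbove (Set.range fun N => ‖G N f‖) :=
      Filter.IsBoundedUnder.bddAbove_range ⟨B, by simpa using hev⟩
    obtain ⟨C, hC⟩ := hbd
    exact ⟨C, fun N => hC ⟨N, rfl⟩⟩
  obtain ⟨C, hC⟩ := banach_steinhaus hbs
  obtain ⟨N, hN1, hN2⟩ := ((hφ.eventually_gt_atTop (2 * |C|)).and (eventually_ge_atTop 2)).exists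
  obtain ⟨g, hg1, hg2⟩ := exists_interp u hinj N
  have hlog : 0 < Real.log N := Real.log_pos (by exact_mod_cast hN2)
  have hφ0 : 0 < φ N := lt_of_le_of_lt (by positivity) hN1
  have h1 : ‖G N g‖ ≤ C := by
    calc ‖G N g‖ ≤ ‖G N‖ * ‖g‖ := (G N).le_opNorm g
      _ ≤ ‖G N‖ * 1 := by gcongr
      _ ≤ C := by rw [mul_one]; exact hC N
  have h2 : landauFun u N g = ((∑ n ∈ Finset.Icc 1 N,
      ((ArithmeticFunction.moebius n : ℤ) : ℝ) / (n : ℝ) *
      ((ArithmeticFunction.moebius n : ℤ) : ℝ) : ℝ) : ℂ) := by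
    rw [landauFun_apply]
    push_cast
    apply Finset.sum_congr rfl
    intro n hn
    rw [hg2 n hn]
  rw [hGn, h2, Complex.norm_real, Real.norm_eq_abs, abs_of_pos (div_pos hφ0 hlog)] at h1
  have h3 := log_le_sum N (by omega)
  have h4 : φ N / Real.log N * (Real.log N / 2) ≤ C := by
    refine le_trans ?_ h1
    apply mul_le_mul_of_nonneg_left _ (div_pos hφ0 hlog).le
    refine le_trans ?_ (le_abs_self _)
    linarith
  have h5 : φ N / Real.log N * (Real.log N / 2) = φ N / 2 := by field_simp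
  rw [h5] at h4
  have h6 := le_abs_self C
  linarith

/-- In particular the Landau-type partial sums can be unbounded. -/
theorem unbounded_of_infinite_orbit (X : Type) [MetricSpace X] [CompactSpace X] (T : X → X)
    (x : X) (hx : (Set.range fun n : ℕ => T^[n] x).Infinite) :
    ∃ f : X → ℂ, Continuous f ∧ ∀ B : ℝ, ∃ N : ℕ, B < ‖∑ n ∈ Finset.Icc 1 N,
      ((ArithmeticFunction.moebius n : ℤ) : ℂ) / (n : ℂ) * f (T^[n] x)‖ := by
  obtain ⟨f, hf, h⟩ := large_of_infinite_orbit X T x hx (fun N => Real.log N)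
    (Real.tendsto_log_atTop.comp tendsto_natCast_atTop_atTop)
  refine ⟨f, hf, fun B => ?_⟩
  obtain ⟨N, hN1, hN2⟩ := ((h B).and_eventually (eventually_ge_atTop 2)).exists
  refine ⟨N, ?_⟩
  have hlog : Real.log N ≠ 0 := (Real.log_pos (by exact_mod_cast hN2)).ne'
  rwa [div_self hlog, mul_one] at hN1

/-- A non-expanding map of a nonempty compact metric space has zero topological entropy. -/
lemma coverEntropy_eq_zero_of_nonexpanding {X : Type} [MetricSpace X] [CompactSpace X]
    [Nonempty X] (T : X → X) (hT : ∀ a b, dist (T a) (T b) ≤ dist a b) :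
    Dynamics.coverEntropy T Set.univ = 0 := by
  have hit : ∀ (k : ℕ) (a b : X), dist (T^[k] a) (T^[k] b) ≤ dist a b := by
    intro k
    induction k with
    | zero => intro a b; simp
    | succ k ih =>
      intro a b
      rw [Function.iterate_succ_apply, Function.iterate_succ_apply]
      exact (ih _ _).trans (hT a b)
  apply le_antisymm _ (Dynamics.coverEntropy_nonneg T Set.univ_nonempty)
  rw [Dynamics.coverEntropy_eq_iSup_basis Metric.uniformity_basis_dist]
  refine iSup₂_le fun ε hε => ?_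
  obtain ⟨t, -, htf, ht⟩ := (isCompact_univ (X := X)).finite_cover_balls hε
  obtain ⟨s, rfl⟩ := htf.exists_finset_coe
  have hcov : ∀ n, Dynamics.IsDynCoverOf T Set.univ {p : X × X | dist p.1 p.2 < ε} n
      (s : Set X) := by
    intro n y hy
    have := ht hy
    simp only [Set.mem_iUnion, Metric.mem_ball, exists_prop] at this
    obtain ⟨z, hz, hyz⟩ := this
    refine ⟨z, hz, ?_⟩
    rw [Dynamics.mem_dynEntourage]
    intro k _
    exact (hit k y z).trans_lt hyz
  have hle : ∀ n, ((Dynamics.coverMincard T Set.univ {p : X × X | dist p.1 p.2 < ε} n : ℕ∞) :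
      ENNReal) ≤ ((s.card : ℕ∞) : ENNReal) :=
    fun n => ENat.toENNReal_mono (hcov n).coverMincard_le_card
  have hne : s.Nonempty := by
    obtain ⟨a⟩ := ‹Nonempty X›
    have := ht (Set.mem_univ a)
    simp only [Set.mem_iUnion, exists_prop] at this
    obtain ⟨z, hz, -⟩ := this
    exact ⟨z, by exact_mod_cast hz⟩
  calc Dynamics.coverEntropyEntourage T Set.univ {p : X × X | dist p.1 p.2 < ε}
      ≤ ExpGrowth.expGrowthSup (fun _ : ℕ => ((s.card : ℕ∞) : ENNReal)) :=
        ExpGrowth.expGrowthSup_monotone hle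
    _ = 0 := by
        apply ExpGrowth.expGrowthSup_const
        · simp [hne.ne_empty]
        · simp

/-- The map `x ↦ x / 2` of the unit interval. -/
noncomputable def halve : unitInterval → unitInterval :=
  fun x => ⟨(x : ℝ) / 2, by constructor <;> linarith [x.2.1, x.2.2]⟩

lemma halve_iter (n : ℕ) : ((halve^[n] 1 : unitInterval) : ℝ) = (1 / 2) ^ n := by
  induction n with
  | zero => simp
  | succ n ih =>
    rw [Function.iterate_succ_apply']
    change ((halve^[n] 1 : unitInterval) : ℝ) / 2 = _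
    rw [ih]; ring

/-- (L) is false. -/
theorem not_landauL : ¬ LandauL := by
  intro hL
  have hcont : Continuous halve := by
    apply Continuous.subtype_mk
    fun_prop
  have hent : Dynamics.coverEntropy halve Set.univ = 0 := by
    apply coverEntropy_eq_zero_of_nonexpanding
    intro a b
    rw [Subtype.dist_eq, Subtype.dist_eq, Real.dist_eq, Real.dist_eq]
    change |(a : ℝ) / 2 - (b : ℝ) / 2| ≤ |(a : ℝ) - (b : ℝ)|
    rw [← sub_div, abs_div]
    have := abs_nonneg ((a : ℝ) - (b : ℝ))
    rw [abs_of_pos (show (0 : ℝ) < 2 by norm_num)]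
    linarith
  have hinf : (Set.range fun n : ℕ => halve^[n] (1 : unitInterval)).Infinite := by
    apply Set.infinite_range_of_injective
    intro m n hmn
    have h1 : ((halve^[m] 1 : unitInterval) : ℝ) = ((halve^[n] 1 : unitInterval) : ℝ) := by
      exact congrArg _ hmn
    rw [halve_iter, halve_iter] at h1
    exact pow_right_injective₀ (by norm_num) (by norm_num) h1
  obtain ⟨f, hf, hunb⟩ := unbounded_of_infinite_orbit unitInterval halve 1 hinf
  obtain ⟨L, hLim⟩ := hL unitInterval halve hcont hent f hf 1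
  obtain ⟨B, hB⟩ := (Metric.isBounded_range_of_tendsto _ hLim).exists_norm_le
  obtain ⟨N, hN⟩ := hunb B
  exact absurd (hB _ ⟨N, rfl⟩) (not_le.mpr hN)

/-- **Main result.** For every compact metric system, every point with infinite forward orbit and
every `φ → ∞`, some continuous function has Landau-type partial sums that are not
`O(log N / φ N)`; in particular (L) is false, and the equivalence of (S) and (L) holds if and only
if Sarnak's conjecture (S) fails. -/
theorem result :
    (∀ (X : Type) [MetricSpace X] [CompactSpace X] (T : X → X) (x : X),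
      (Set.range fun n : ℕ => T^[n] x).Infinite →
      ∀ φ : ℕ → ℝ, Tendsto φ atTop atTop →
      ∃ f : X → ℂ, Continuous f ∧ ∀ B : ℝ, ∃ᶠ N : ℕ in atTop,
        B * (Real.log N / φ N) < ‖∑ n ∈ Finset.Icc 1 N,
          ((ArithmeticFunction.moebius n : ℤ) : ℂ) / (n : ℂ) * f (T^[n] x)‖) ∧
    ¬ LandauL ∧ ((SarnakS ↔ LandauL) ↔ ¬ SarnakS) := by
  refine ⟨fun X _ _ T x hx φ hφ => large_of_infinite_orbit X T x hx φ hφ, not_landauL, ?_⟩
  have h := not_landauL
  tauto

end Pool.Agent.Results.MP_aae597_nt.LandauFails
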